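import Mathlib
import Pool.Agent.Work.MP_33f02b_co.Main

/-!
Isolation number of a Cartesian product versus the independence-domination number.

* `isolationNumber G`, `dominationOf G I`, `indepDomination G` are the parameters `ι(G)`,
  the least number of vertices dominating `I`, and `γ^i(G)` of the problem.
* `Admissible G I k`: `I` is independent, at least `k` vertices are needed to dominate `I`, and
  either `k ≤ 3` or, after deleting at most `k - 2` vertices from `I`, the rest of `I` is
  dominated by two vertices.
* `farNumber G`: the largest value of `∑ t, k t` over finite families `(I t, k t)` of admissible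
  pairs such that the closed neighbourhoods `N[I t]` are pairwise disjoint.
-/

namespace Pool.Agent.Results.MP_33f02b_co.FarPieces

open Pool.Agent.Work.MP_33f02b_co

variable {V W : Type*}

/-- Possible values of `∑ t, k t` for finite families of admissible pairs with pairwise disjoint
closed neighbourhoods. -/
def FarValue (G : SimpleGraph V) (n : ℕ) : Prop :=
  ∃ (m : ℕ) (I : Fin m → Set V) (k : Fin m → ℕ), (∀ t, Admissible G (I t) (k t)) ∧
    (∀ s t, s ≠ t → Disjoint (closedNbhd G (I s)) (closedNbhd G (I t))) ∧ ∑ t, k t = n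

/-- The largest value of `∑ t, k t`. -/
noncomputable def farNumber (G : SimpleGraph V) : ℕ := sSup {n | FarValue G n}

lemma dominationOf_le_card [Fintype V] (G : SimpleGraph V) (I : Set V) :
    dominationOf G I ≤ Fintype.card V :=
  dominationOf_le G (D := Finset.univ) (fun _ _ => Or.inl (by simp))

lemma bdd_indep [Fintype V] (G : SimpleGraph V) :
    BddAbove {n | ∃ I : Set V, G.IsIndepSet I ∧ dominationOf G I = n} := by
  refine ⟨Fintype.card V, ?_⟩
  rintro n ⟨I, -, rfl⟩
  exact dominationOf_le_card G I

lemma le_indepDomination [Fintype V] (G : SimpleGraph V) (I : Set V) (hI : G.IsIndepSet I) :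
    dominationOf G I ≤ indepDomination G :=
  le_csSup (bdd_indep G) ⟨I, hI, rfl⟩

lemma exists_indep [Fintype V] (G : SimpleGraph V) :
    ∃ I : Set V, G.IsIndepSet I ∧ dominationOf G I = indepDomination G :=
  Nat.sSup_mem (s := {n | ∃ I : Set V, G.IsIndepSet I ∧ dominationOf G I = n})
    ⟨_, ∅, by simp [SimpleGraph.IsIndepSet], rfl⟩ (bdd_indep G)

lemma farValue_le [Fintype V] (G : SimpleGraph V) {n : ℕ} (h : FarValue G n) :
    n ≤ indepDomination G := by
  classical
  obtain ⟨m, I, k, hadm, hfar, rfl⟩ := h
  have hind : G.IsIndepSet (⋃ t, I t) := by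
    intro u hu v hv huv hadj
    obtain ⟨s, hs⟩ := Set.mem_iUnion.1 hu
    obtain ⟨t, ht⟩ := Set.mem_iUnion.1 hv
    by_cases hst : s = t
    · subst hst
      exact (hadm s).1 hs ht huv hadj
    · exact Set.disjoint_left.1 (hfar s t hst) (Or.inr ⟨u, hs, hadj⟩) (Or.inl ht)
  refine le_trans ?_ (le_indepDomination G _ hind)
  obtain ⟨D, hD, hc⟩ := exists_dominating G (⋃ t, I t)
  rw [← hc]
  calc ∑ t, k t ≤ ∑ t, (D.filter (fun v => v ∈ closedNbhd G (I t))).card := by
        apply Finset.sum_le_sum
        intro t _
        refine (hadm t).2.1.trans (dominationOf_le G ?_)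
        intro v hv
        rcases hD (Set.mem_iUnion.2 ⟨t, hv⟩) with h | ⟨a, ha, hav⟩
        · left
          simp only [Finset.coe_filter, Set.mem_ofPred_eq]
          exact ⟨h, Or.inl hv⟩
        · right
          refine ⟨a, ?_, hav⟩
          simp only [Finset.coe_filter, Set.mem_ofPred_eq]
          exact ⟨ha, Or.inr ⟨v, hv, hav.symm⟩⟩
    _ = (Finset.univ.biUnion (fun t => D.filter (fun v => v ∈ closedNbhd G (I t)))).card := by
        rw [Finset.card_biUnion]
        intro s _ t _ hst
        rw [Function.onFun, Finset.disjoint_filter]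
        intro x _ h1 h2
        exact Set.disjoint_left.1 (hfar s t hst) h1 h2
    _ ≤ D.card := by
        apply Finset.card_le_card
        intro x hx
        obtain ⟨t, -, ht⟩ := Finset.mem_biUnion.1 hx
        exact (Finset.mem_filter.1 ht).1

lemma bdd_far [Fintype V] (G : SimpleGraph V) : BddAbove {n | FarValue G n} :=
  ⟨indepDomination G, fun _ h => farValue_le G h⟩

lemma farNumber_mem [Fintype V] (G : SimpleGraph V) : FarValue G (farNumber G) :=
  Nat.sSup_mem (s := {n | FarValue G n})
    ⟨0, 0, Fin.elim0, Fin.elim0, fun t => t.elim0, fun t => t.elim0, by simp⟩ (bdd_far G)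

lemma min_le_farNumber [Fintype V] (G : SimpleGraph V) :
    min (indepDomination G) 3 ≤ farNumber G := by
  obtain ⟨I, hI, hd⟩ := exists_indep G
  apply le_csSup (bdd_far G)
  refine ⟨1, fun _ => I, fun _ => min (indepDomination G) 3, fun _ => ⟨hI, ?_, Or.inl ?_⟩, ?_, ?_⟩
  · rw [hd]; exact min_le_left _ _
  · exact min_le_right _ _
  · intro s t hst
    exact absurd (Subsingleton.elim s t) hst
  · simp

/-- `ι(G □ H) ≥ farNumber(G) · ι(H)` for all finite graphs `G`, `H`, where
`farNumber G ≤ γ^i(G)`, with equality when `γ^i(G) ≤ 3`. So `ι(G □ H) ≥ γ^i(G) · ι(H)` holds for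
every `G` with `farNumber G = γ^i(G)`, in particular for every `G` with `γ^i(G) ≤ 3`, and every
`H`. -/
theorem result (V W : Type) [Fintype V] [Fintype W] (G : SimpleGraph V) (H : SimpleGraph W) :
    farNumber G * isolationNumber H ≤ isolationNumber (G □ H) ∧
      farNumber G ≤ indepDomination G ∧
      (indepDomination G ≤ 3 → farNumber G = indepDomination G) := by
  refine ⟨?_, farValue_le G (farNumber_mem G), fun h => ?_⟩
  · obtain ⟨m, I, k, hadm, hfar, hsum⟩ := farNumber_mem G
    rw [← hsum]
    exact family_bound G H Finset.univ I k (fun t _ => hadm t) (fun s _ t _ hst => hfar s t hst)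
  · have h1 := min_le_farNumber G
    rw [min_eq_left h] at h1
    exact le_antisymm (farValue_le G (farNumber_mem G)) h1

end Pool.Agent.Results.MP_33f02b_co.FarPieces
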